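import Pool.Agent.H97.LAY.Stmts5

/-! # Board lay, row MON -/

set_option autoImplicit false

namespace Pool.LAY

theorem MON : MONStmt := by
  intro A a ξ hA ha h0 h2
  induction a, ha using Nat.le_induction with
  | base => exact le_rfl
  | succ a ha ih =>
    refine le_trans ?_ ih
    have ha8 : (8 : ℝ) ≤ a := by exact_mod_cast hA.trans ha
    have hapos : (0 : ℝ) < a := by linarith
    have he := Real.exp_one_lt_d9
    have he0 : 0 < Real.exp 1 := Real.exp_pos 1
    have heξ : 0 ≤ Real.exp 1 * ξ := mul_nonneg he0.le h0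
    have heξ8 : Real.exp 1 * ξ ≤ a := by
      calc Real.exp 1 * ξ ≤ Real.exp 1 * 2 := mul_le_mul_of_nonneg_left h2 he0.le
        _ ≤ 8 := by linarith
        _ ≤ a := ha8
    have e1 : ((a + 1 : ℕ) : ℝ) * (Real.exp 1 * ξ / ((a + 1 : ℕ) : ℝ)) ^ (a + 1) =
        (Real.exp 1 * ξ) * (Real.exp 1 * ξ / ((a + 1 : ℕ) : ℝ)) ^ a := by
      have hne : ((a + 1 : ℕ) : ℝ) ≠ 0 := by positivity
      rw [pow_succ']
      field_simp
    rw [e1]
    have hq : Real.exp 1 * ξ / ((a + 1 : ℕ) : ℝ) ≤ Real.exp 1 * ξ / a := by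
      apply div_le_div_of_nonneg_left heξ hapos
      push_cast
      linarith
    have hp : (Real.exp 1 * ξ / ((a + 1 : ℕ) : ℝ)) ^ a ≤ (Real.exp 1 * ξ / a) ^ a :=
      pow_le_pow_left₀ (div_nonneg heξ (by positivity)) hq a
    exact mul_le_mul heξ8 hp (pow_nonneg (div_nonneg heξ (by positivity)) _) hapos.le

end Pool.LAY
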